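import Mathlib
import Pool.Agent.H33.OmDefs

namespace Pool.Agent.Results.MP_3dda3d_al.Q1
open Pool.Agent.H33.Om

abbrev ar2 : Bool → ℕ := fun _ => 2

def mk2 (g : (ℚ × ℚ) →ₗ[ℚ] (ℚ × ℚ) →ₗ[ℚ] (ℚ × ℚ)) :
    MultilinearMap ℚ (fun _ : Fin 2 => ℚ × ℚ) (ℚ × ℚ) where
  toFun a := g (a 0) (a 1)
  map_update_add' := by
    intro _ a i x y
    fin_cases i <;> simp [Function.update]
  map_update_smul' := by
    intro _ a i c x
    fin_cases i <;> simp [Function.update]

def g0 : (ℚ × ℚ) →ₗ[ℚ] (ℚ × ℚ) →ₗ[ℚ] (ℚ × ℚ) :=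
  LinearMap.mk₂ ℚ (fun x y => (x.1 * y.1, x.1 * y.2))
    (by intros; ext <;> simp <;> ring) (by intros; ext <;> simp <;> ring)
    (by intros; ext <;> simp <;> ring) (by intros; ext <;> simp <;> ring)

def g1 (c : ℚ) : (ℚ × ℚ) →ₗ[ℚ] (ℚ × ℚ) →ₗ[ℚ] (ℚ × ℚ) :=
  LinearMap.mk₂ ℚ (fun x y => (c * x.2 * y.2, 0))
    (by intros; ext <;> simp <;> ring) (by intros; ext <;> simp <;> ring)
    (by intros; ext <;> simp <;> ring) (by intros; ext <;> simp <;> ring)

def W (c : ℚ) : Ops ℚ ar2 (ℚ × ℚ) := fun s => match s with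
  | false => mk2 g0
  | true => mk2 (g1 c)

lemma W_false (c : ℚ) (a : Fin 2 → ℚ × ℚ) :
    W c false a = ((a 0).1 * (a 1).1, (a 0).1 * (a 1).2) := rfl
lemma W_true (c : ℚ) (a : Fin 2 → ℚ × ℚ) :
    W c true a = (c * (a 0).2 * (a 1).2, 0) := rfl

def evR {R : Type} [CommRing R] (c : R) (x : ℕ → R × R) : Mon Bool ar2 → R × R
  | .var i => x i
  | .op false m => ((evR c x (m 0)).1 * (evR c x (m 1)).1, (evR c x (m 0)).1 * (evR c x (m 1)).2)
  | .op true m => (c * (evR c x (m 0)).2 * (evR c x (m 1)).2, 0)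

lemma ev_eq (c : ℚ) (x : ℕ → ℚ × ℚ) (m : Mon Bool ar2) : ev (W c) x m = evR c x m := by
  induction m with
  | var i => rfl
  | op s m ih =>
    cases s
    · simp only [ev, evR, W_false, ih]
    · simp only [ev, evR, W_true, ih]

lemma evR_map {R R' : Type} [CommRing R] [CommRing R'] (φ : R →+* R') (c : R) (x : ℕ → R × R)
    (m : Mon Bool ar2) :
    evR (φ c) (fun i => (φ (x i).1, φ (x i).2)) m = (φ (evR c x m).1, φ (evR c x m).2) := by
  induction m with
  | var i => rfl
  | op s m ih =>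
    cases s
    · simp only [evR, ih, map_mul]
    · simp only [evR, ih, map_mul, map_zero]

lemma evR_scale {R : Type} [CommRing R] (c t : R) (x : ℕ → R × R) (m : Mon Bool ar2) :
    evR c (fun i => ((x i).1, t * (x i).2)) m
      = ((evR (c * t * t) x m).1, t * (evR (c * t * t) x m).2) := by
  induction m with
  | var i => rfl
  | op s m ih =>
    cases s
    · simp only [evR, ih]; ext <;> simp; ring
    · simp only [evR, ih]; ext <;> simp; ring

abbrev P := MvPolynomial (ℕ × Bool) ℚ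
noncomputable def gen : ℕ → P × P := fun i => (MvPolynomial.X (i, false), MvPolynomial.X (i, true))

lemma ids_iff (c : ℚ) (f : Mon Bool ar2 →₀ ℚ) : f ∈ Ids (W c) ↔ ∀ x : ℕ → ℚ × ℚ,
    (∑ m ∈ f.support, f m * (evR c x m).1 = 0) ∧ ∑ m ∈ f.support, f m * (evR c x m).2 = 0 := by
  unfold Ids evF
  simp only [Set.mem_ofPred_eq, Finsupp.sum, ev_eq, Prod.ext_iff, Prod.fst_sum, Prod.snd_sum,
    Prod.smul_fst, Prod.smul_snd, smul_eq_mul, Prod.fst_zero, Prod.snd_zero]

lemma sub (c : ℚ) : Ids (W c) ⊆ Ids (W (-c)) := by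
  intro f hf
  rw [ids_iff] at hf ⊢
  have key : ∀ p : ℕ × Bool → ℚ, ∀ m,
      (MvPolynomial.eval p (evR (MvPolynomial.C c) gen m).1,
        MvPolynomial.eval p (evR (MvPolynomial.C c) gen m).2)
      = evR c (fun i => (p (i, false), p (i, true))) m := by
    intro p m
    rw [← evR_map]; simp [gen]
  have h1 : ∑ m ∈ f.support, MvPolynomial.C (f m) * (evR (MvPolynomial.C c) gen m).1 = (0 : P) := by
    apply MvPolynomial.funext
    intro p
    have := (hf (fun i => (p (i, false), p (i, true)))).1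
    simp only [← key] at this
    simpa using this
  have h2 : ∑ m ∈ f.support, MvPolynomial.C (f m) * (evR (MvPolynomial.C c) gen m).2 = (0 : P) := by
    apply MvPolynomial.funext
    intro p
    have := (hf (fun i => (p (i, false), p (i, true)))).2
    simp only [← key] at this
    simpa using this
  intro x
  let p : ℕ × Bool → ℂ := fun q => if q.2 then Complex.I * ((x q.1).2 : ℂ) else ((x q.1).1 : ℂ)
  let φ : P →+* ℂ := MvPolynomial.eval₂Hom (algebraMap ℚ ℂ) p
  have k2 : ∀ m, (φ (evR (MvPolynomial.C c) gen m).1, φ (evR (MvPolynomial.C c) gen m).2)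
      = ((((evR (-c) x m).1 : ℚ) : ℂ), Complex.I * (((evR (-c) x m).2 : ℚ) : ℂ)) := by
    intro m
    rw [← evR_map]
    have e1 := evR_map (algebraMap ℚ ℂ) (-c) x m
    have e2 := evR_scale (c : ℂ) Complex.I
      (fun i => (algebraMap ℚ ℂ (x i).1, algebraMap ℚ ℂ (x i).2)) m
    have e3 : (c : ℂ) * Complex.I * Complex.I = algebraMap ℚ ℂ (-c) := by
      rw [mul_assoc, Complex.I_mul_I]; simp
    rw [e3, e1] at e2
    simpa [φ, gen, p] using e2
  have k3 := fun m => congrArg Prod.fst (k2 m)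
  have k4 := fun m => congrArg Prod.snd (k2 m)
  simp only at k3 k4
  have hC : ∀ q : ℚ, φ (MvPolynomial.C q) = (q : ℂ) := by intro q; simp [φ]
  have a1 := congrArg φ h1
  have a2 := congrArg φ h2
  simp only [map_sum, map_mul, map_zero, k3, k4, hC] at a1 a2
  constructor
  · exact_mod_cast a1
  · have : Complex.I * ∑ m ∈ f.support, (f m : ℂ) * (((evR (-c) x m).2 : ℚ) : ℂ) = 0 := by
      rw [Finset.mul_sum, ← a2]; apply Finset.sum_congr rfl; intros; ring
    have := (mul_eq_zero.1 this).resolve_left Complex.I_ne_zero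
    exact_mod_cast this

lemma crit (c : ℚ) : Critical (reduct (W c) {false}) := by
  intro h
  let s0 : ({false} : Set Bool) := ⟨false, rfl⟩
  let M := Mon ({false} : Set Bool) (fun s => ar2 s.1)
  let m1 : M := .op s0 ![.var 0, .var 1]
  let m2 : M := .op s0 ![.var 1, .var 0]
  have hev : ∀ x : ℕ → ℚ × ℚ, evF (reduct (W c) {false}) x
      (Finsupp.single m1 1 - Finsupp.single m2 1)
      = (0, (x 0).1 * (x 1).2 - (x 1).1 * (x 0).2) := by
    intro x
    unfold evF
    rw [Finsupp.sum_sub_index (by intros; rw [sub_smul])]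
    simp only [zero_smul, Finsupp.sum_single_index, one_smul]
    have e1 : ev (reduct (W c) {false}) x m1 = ((x 0).1 * (x 1).1, (x 0).1 * (x 1).2) := rfl
    have e2 : ev (reduct (W c) {false}) x m2 = ((x 1).1 * (x 0).1, (x 1).1 * (x 0).2) := rfl
    rw [e1, e2]; ext <;> simp; ring
  have := h (Finsupp.single m1 1 - Finsupp.single m2 1) (by
    intro R I _ hI hne x hx
    rw [hev]
    by_cases hd : (x 0).1 * (x 1).2 - (x 1).1 * (x 0).2 = 0
    · rw [hd]; exact I.zero_mem
    have hR : R = ⊤ := by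
      rw [eq_top_iff]; intro y _
      have : y = ((y.1 * (x 1).2 - (x 1).1 * y.2) / ((x 0).1 * (x 1).2 - (x 1).1 * (x 0).2)) • x 0
          + (((x 0).1 * y.2 - y.1 * (x 0).2) / ((x 0).1 * (x 1).2 - (x 1).1 * (x 0).2)) • x 1 := by
        ext <;> simp only [Prod.fst_add, Prod.snd_add, Prod.smul_fst, Prod.smul_snd, smul_eq_mul] <;>
          rw [div_mul_eq_mul_div, div_mul_eq_mul_div, ← add_div, eq_div_iff hd] <;> ring
      rw [this]
      exact R.add_mem (R.smul_mem _ (hx 0)) (R.smul_mem _ (hx 1))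
    have hI0 : I ≠ ⊥ := fun h0 => hne ⟨hR, h0⟩
    obtain ⟨z, hz, hz0⟩ := Submodule.exists_mem_ne_zero_of_ne_bot hI0
    by_cases h1 : z.1 = 0
    · have h2 : z.2 ≠ 0 := fun h2 => hz0 (Prod.ext h1 h2)
      have := I.smul_mem (((x 0).1 * (x 1).2 - (x 1).1 * (x 0).2) / z.2) hz
      convert this using 1
      ext
      · simp [h1]
      · simp only [Prod.smul_snd, smul_eq_mul]; field_simp
    · have := hI.2 s0 ![z, (0, ((x 0).1 * (x 1).2 - (x 1).1 * (x 0).2) / z.1)]
        (by intro j; rw [hR]; trivial) ⟨0, hz⟩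
      convert this using 1
      change _ = (z.1 * 0, z.1 * (((x 0).1 * (x 1).2 - (x 1).1 * (x 0).2) / z.1))
      ext
      · simp
      · simp only; field_simp) (fun i => if i = 0 then (1, 0) else (0, 1))
  rw [hev] at this
  simp at this

lemma noiso : ¬ Iso (W 1) (W (-1)) := by
  rintro ⟨g, hg⟩
  have h1 := hg true ![(0, 1), (0, 1)]
  have h2 := hg false ![(0, 1), (1, 0)]
  have h3 := hg false ![(1, 0), (1, 0)]
  simp only [W_true, W_false, Matrix.cons_val_zero, Matrix.cons_val_one, mul_one, zero_mul,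
    mul_zero, Matrix.cons_val_fin_one] at h1 h2 h3
  have hne : g (1, 0) ≠ 0 := by
    intro h0
    have := g.injective (h0.trans g.map_zero.symm)
    simp at this
  have a1 := congrArg Prod.fst h1
  have a2 := congrArg Prod.snd h1
  have a3 := congrArg Prod.fst h3
  simp only at a1 a2 a3
  have : (g (1, 0)).1 ≠ 0 := fun h0 => hne (Prod.ext h0 a2)
  have h4 : (g (1, 0)).1 = 1 := by
    have : (g (1, 0)).1 * ((g (1, 0)).1 - 1) = 0 := by linarith
    rcases mul_eq_zero.1 this with h | h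
    · contradiction
    · linarith
  nlinarith [mul_self_nonneg (g (0, 1)).2]

theorem result : ∃ w v : Ops ℚ (fun _ : Bool => 2) (ℚ × ℚ),
    Iso (reduct w {false}) (reduct v {false}) ∧
    Critical (reduct w {false}) ∧ Critical (reduct v {false}) ∧
    Ids w = Ids v ∧ ¬ Iso w v := by
  refine ⟨W 1, W (-1), ⟨LinearEquiv.refl _ _, ?_⟩, crit _, crit _, ?_, noiso⟩
  · rintro ⟨s, rfl⟩ a; rfl
  · apply Set.Subset.antisymm (sub 1)
    simpa using sub (-1)

end Pool.Agent.Results.MP_3dda3d_al.Q1
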